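import Pool.Agent.H50.CompactIso

set_option autoImplicit false

/-!
# Isospectral sets of convex polygons are compact

For each compact family of convex polygons there is a bound for the number of vertices of all the
convex polygons (with any number of vertices) which have the same Dirichlet spectrum as a member of
the family, and the set of all isospectral pairs, normalized by a translation, is compact for the
Hausdorff metric. In particular the isospectral set of a convex polygon is compact: a sequence of
convex polygons with the same spectrum and any numbers of vertices has, after translations, a
subsequence which converges to a convex polygon with this spectrum. It cannot degenerate, and it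
cannot converge to a convex set which is not a polygon.
-/

open Set Filter TopologicalSpace
open Pool.Agent.W780.PG (IsConvexPolygon region)
open Pool.Agent.W703.GP (dirichletEigenvalue)

namespace Pool.Agent.Results.MP_5b0138_an.CompactIsospectralSets

/-- `A` is a compact set of lists of the `n + 3` vertices of convex polygons (for instance `{p}`).
The first part: all convex polygons (interiors of convex hulls of finite sets `T`, if nonempty) which
have the same Dirichlet eigenvalues as the polygon `region p` of some `p ∈ A`, with at most finitely
many exceptions, are spanned by at most `N` points. The second part: the set of the pairs `(p, K)`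
such that `p ∈ A` and `K` is a closed convex polygon containing the origin whose interior has the
same Dirichlet eigenvalues as `region p`, with at most finitely many exceptions, is compact, for the
Hausdorff metric on the closed polygons `K`. -/
theorem result (n : ℕ) (A : Set (Fin (n + 3) → ℂ)) (hA : IsCompact A)
    (hp : ∀ p ∈ A, IsConvexPolygon p) :
    (∃ N : ℕ, ∀ p ∈ A, ∀ T : Set ℂ, T.Finite → (interior (convexHull ℝ T)).Nonempty →
      (∀ᶠ k in atTop, dirichletEigenvalue (region p) k =
        dirichletEigenvalue (interior (convexHull ℝ T)) k) →
      ∃ q : Fin N → ℂ, convexHull ℝ (range q) = convexHull ℝ T) ∧
    IsCompact {x : (Fin (n + 3) → ℂ) × NonemptyCompacts ℂ | x.1 ∈ A ∧ 0 ∈ (x.2 : Set ℂ) ∧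
      (∃ T : Set ℂ, T.Finite ∧ (x.2 : Set ℂ) = convexHull ℝ T) ∧
      (interior (x.2 : Set ℂ)).Nonempty ∧
      ∀ᶠ k in atTop, dirichletEigenvalue (region x.1) k =
        dirichletEigenvalue (interior (x.2 : Set ℂ)) k} :=
  Pool.Agent.H50.CI.compact_iso hA hp

end Pool.Agent.Results.MP_5b0138_an.CompactIsospectralSets
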