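import Pool.Agent.H50.AllCompanions

set_option autoImplicit false

/-!
# Almost every convex polygon whose non-adjacent sides are far apart has finitely many companions
among all convex polygons

Let `N ≥ 4`. For almost every convex `N`-gon `P` whose perimeter is less than `N + 1` times the
least distance between two non-adjacent sides (an open condition, satisfied for instance by regular
polygons and by rectangles with ratio of sides less than `3 / 2`), the convex polygons isospectral
to `P`, with any number of vertices, are finitely many up to congruence; they all have exactly `N`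
vertices, depend analytically on `P`, and their number is locally constant.
-/

open Set MeasureTheory Filter
open scoped Topology
open Pool.Agent.W780.PG (IsConvexPolygon region)
open Pool.Agent.W703.GP (Isospectral dirichletEigenvalue)

namespace Pool.Agent.Results.MP_5b0138_an.CompanionsAmongAll

/-- The convex polygons with `n + 3` vertices whose perimeter is less than `n + 4` times a number
`d` which is at most the distance of any two points of sides which are not adjacent. -/
def Roomy (n : ℕ) : Set (Fin (n + 3) → ℂ) :=
  {p | IsConvexPolygon p ∧ ∃ d : ℝ, (∀ i j : Fin (n + 3), j ≠ i → j ≠ i + 1 → i ≠ j + 1 →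
    ∀ x ∈ segment ℝ (p i) (p (i + 1)), ∀ y ∈ segment ℝ (p j) (p (j + 1)), d ≤ dist x y) ∧
    ∑ i, ‖p (i + 1) - p i‖ < (n + 4) * d}

/-- There is an open set `G` of lists of `n + 3 ≥ 4` points of the plane, containing
Lebesgue-almost every member of `Roomy n`, such that each `p` in `G` has a neighbourhood `U` with
finitely many real analytic maps `g 0, …, g (r - 1)` on `U` such that for each `q` in `U`: `q` is a
convex polygon, the `g i q` are convex polygons with `n + 3` vertices isospectral to `q`, no two of
them are congruent, and each convex polygon (interior of the convex hull of a finite set `T`), with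
any number of vertices, whose Dirichlet eigenvalues agree with those of `q` except for finitely many
is congruent to one of the `g i q`. -/
theorem result (n : ℕ) (hn : 1 ≤ n) :
    ∃ G : Set (Fin (n + 3) → ℂ), IsOpen G ∧ volume (Roomy n \ G) = 0 ∧
      ∀ p ∈ G, ∃ U ∈ 𝓝 p, ∃ (r : ℕ) (g : Fin r → (Fin (n + 3) → ℂ) → (Fin (n + 3) → ℂ)),
        (∀ i, AnalyticOnNhd ℝ (g i) U) ∧ ∀ q ∈ U, IsConvexPolygon q ∧
          (∀ i, IsConvexPolygon (g i q) ∧ Isospectral (region q) (region (g i q))) ∧
          (∀ i j, (∃ φ : ℂ ≃ᵢ ℂ, φ '' region (g i q) = region (g j q)) → i = j) ∧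
          ∀ T : Set ℂ, T.Finite → (interior (convexHull ℝ T)).Nonempty →
            (∀ᶠ k in atTop, dirichletEigenvalue (region q) k =
              dirichletEigenvalue (interior (convexHull ℝ T)) k) →
            ∃ i, ∃ φ : ℂ ≃ᵢ ℂ, φ '' region (g i q) = interior (convexHull ℝ T) := by
  obtain ⟨G, hG, hv, h⟩ := Pool.Agent.H50.AC.companions n hn
  refine ⟨G, hG, measure_mono_null ?_ hv, h⟩
  rintro p ⟨⟨hp, d, hd, hlt⟩, hpG⟩
  refine ⟨⟨hp, ?_⟩, hpG⟩
  obtain ⟨n, rfl⟩ : ∃ k, n = k + 1 := ⟨n - 1, by omega⟩
  have hne : {r : ℝ | ∃ i j : Fin (n + 1 + 3), j ≠ i ∧ j ≠ i + 1 ∧ i ≠ j + 1 ∧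
      ∃ x ∈ segment ℝ (p i) (p (i + 1)), ∃ y ∈ segment ℝ (p j) (p (j + 1)),
        r = dist x y}.Nonempty := by
    by_contra hne
    rw [not_nonempty_iff_eq_empty] at hne
    have h0 := (Pool.Agent.R225.LP.nb n p hp).1
    unfold Pool.Agent.R225.LP.sd at h0
    rw [hne, Real.sInf_empty] at h0
    exact lt_irrefl _ h0
  have hle : d ≤ Pool.Agent.R225.LP.sd p := by
    refine le_csInf hne ?_
    rintro r ⟨i, j, h1, h2, h3, x, hx, y, hy, rfl⟩
    exact hd i j h1 h2 h3 x hx y hy
  have hn4 : (0 : ℝ) < ((n + 1 : ℕ) : ℝ) + 4 := by positivity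
  exact hlt.trans_le (mul_le_mul_of_nonneg_left hle hn4.le)

end Pool.Agent.Results.MP_5b0138_an.CompanionsAmongAll
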