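import Pool.Agent.W5h49.Tt.Main

set_option autoImplicit false

/-!
# The first three heat invariants of an arbitrary bounded convex domain, and hearing its corners

Let `Ω` be a bounded convex domain in the plane, with no assumption on its boundary (for example, the
corners may be dense in the boundary). Then the heat trace has an expansion up to the constant term,
`Z(t) = |Ω| / (4 π t) - L / (8 √(π t)) + 1 / 6 + Γ / (24 π) + o(1)`, where `L` is the perimeter and
`Γ = ∑ (π - α) ^ 2 / α` is a convergent sum over the corners, with interior angles `α`. Hence `Γ` is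
determined by the Dirichlet spectrum among all bounded convex domains; as `Γ = 0` if and only if the
boundary is differentiable, a bounded convex domain which is isospectral to a convex domain with
differentiable (for example smooth) boundary has differentiable boundary.

Main idea: `4 π t Z(t)` is the expected area of `Ω ⊖ √t X`, the set of positions of `√t` times a random
loop `X` inside of `Ω`. We compare it for a circumscribed polygon `q` near `Ω`.
* From below: the area is at least `A(q) - 2 V(q, h) + A(h, q)`, where `A(h, q)` is the area of the polygon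
  with the normals of `q` circumscribed about the loop, as long as the loop fits; the loops which do
  not fit contribute `O(t ^ 2)`, uniformly in `q`. If `q` is the convex hull of a polygon near `Ω` and
  of the images of some corners of `Ω` under a small homothety, it has these corners. (`Low.lean`.)
* From above: `A(q ⊖ h) ≤ A(q) - 2 V(q, h) + A(h, T)`, where `T` are the sides of `q` which touch `q ⊖ h`
  (`Mp.lean`, by the trapezoidal rule for the derivative of the area and a maximum principle on the
  cycle of the sides). Let `p` be the polygon circumscribed about `Ω` with normals in a fine finite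
  net of directions. For small loops there is an element of `T` near the normal of every side of `p`,
  as the support function of `Ω` is not sinusoidal there (`Tn.lean`), so that `A(h, T)` is not much
  larger than the area of the polygon with the normals of `p` circumscribed about the loop
  (`Pw.lean`); its expectation is the third heat invariant of `p`. The vertices of `p` at which the
  exterior angle is larger than the mesh of the net are corners of `Ω`, with at most the same interior
  angle (`Up.lean`). All constants are uniform in `q`.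
-/

open MeasureTheory Set Filter Topology
open Pool.Agent.W703.GP (dirichletEigenvalue)
open Pool.Agent.W780.PG (IsConvexPolygon region)
open Pool.Agent.Y289.SQ (per)
open scoped Real

namespace Pool.Agent.Results.MP_5b0138_an.CornersOfConvexDomains

/-- a bounded convex domain of the plane; nothing is assumed about its boundary -/
structure ConvexDomain (Ω : Set ℂ) : Prop where
  isOpen : IsOpen Ω
  convex : Convex ℝ Ω
  bounded : Bornology.IsBounded Ω
  nonempty : Ω.Nonempty

/-- the heat trace, defined by the Dirichlet eigenvalues -/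
noncomputable def heatTrace (Ω : Set ℂ) (t : ℝ) : ℝ :=
  ∑' k : ℕ, Real.exp (-(t * dirichletEigenvalue Ω (k + 1)))

/-- the interior angle of the convex domain `Ω` at the boundary point `v`: the supremum of the angles
`∠ x v y` with `x, y ∈ Ω`. It is `π` if and only if there is only one supporting line at `v`. -/
noncomputable def interiorAngle (Ω : Set ℂ) (v : ℂ) : ℝ :=
  sSup {φ | ∃ x ∈ Ω, ∃ y ∈ Ω, φ = EuclideanGeometry.angle x v y}

/-- the sum of `(π - α) ^ 2 / α` over the boundary points, where `α` is the interior angle; only the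
corners contribute -/
noncomputable def cornerSum (Ω : Set ℂ) : ℝ :=
  ∑' v : frontier Ω, (π - interiorAngle Ω v) ^ 2 / interiorAngle Ω v

/-- `L` is the perimeter of the convex domain `Ω`: the perimeters of the convex polygons which
contain `Ω` and are contained in the closed `d`-neighbourhood of `Ω` tend to `L` as `d → 0`. -/
def HasPerimeter (Ω : Set ℂ) (L : ℝ) : Prop :=
  ∀ ε : ℝ, 0 < ε → ∃ d : ℝ, 0 < d ∧ ∀ (m : ℕ) (q : Fin (m + 3) → ℂ), IsConvexPolygon q →
    Ω ⊆ region q → region q ⊆ Metric.cthickening d Ω → |per q - L| ≤ ε

open Pool.Agent.W5h49.Tt in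
theorem expansion {Ω : Set ℂ} (h : ConvexDomain Ω) :
    Summable (fun v : frontier Ω => (π - interiorAngle Ω v) ^ 2 / interiorAngle Ω v) ∧
    ∃ L : ℝ, HasPerimeter Ω L ∧
      Tendsto (fun t : ℝ => heatTrace Ω t - (volume Ω).toReal / (4 * π * t) + L / (8 * √(π * t)))
        (𝓝[>] 0) (𝓝 (1 / 6 + cornerSum Ω / (24 * π))) := by
  obtain ⟨ho, hc, hb, hne⟩ := h
  have hs := summable_gf ho hc hb hne
  have hgf : gf Ω = (frontier Ω).indicator
      (fun v => (π - interiorAngle Ω v) ^ 2 / interiorAngle Ω v) := rfl
  have e0 : (∑' v, gf Ω v) = cornerSum Ω := by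
    rw [hgf, cornerSum,
      tsum_subtype (frontier Ω) (fun v => (π - interiorAngle Ω v) ^ 2 / interiorAngle Ω v)]
  obtain ⟨L, hL, hlim⟩ := main ho hc hb hne
  refine ⟨?_, L, hL, ?_⟩
  · rw [hgf] at hs
    exact (summable_subtype_iff_indicator (f := fun v =>
      (π - interiorAngle Ω v) ^ 2 / interiorAngle Ω v)).2 hs
  · have h2 := hlim.const_mul (1 / (4 * π))
    have e1 : 1 / (4 * π) * kQ Ω = 1 / 6 + cornerSum Ω / (24 * π) := by
      have := Real.pi_pos.ne'
      rw [kQ, e0]
      field_simp
      ring
    rw [e1] at h2
    refine h2.congr' ?_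
    filter_upwards [self_mem_nhdsWithin] with t ht
    have ht : 0 < t := ht
    have hst : 0 < √t := Real.sqrt_pos.2 ht
    have hsp : 0 < √π := Real.sqrt_pos.2 Real.pi_pos
    have h1 : √(π * t) = √π * √t := Real.sqrt_mul Real.pi_pos.le t
    have h3 : √t * √t = t := Real.mul_self_sqrt ht.le
    have h4 : √π * √π = π := Real.mul_self_sqrt Real.pi_pos.le
    have e2 : L / (8 * (√π * √t)) = L * (√π * √t) / (8 * (π * t)) := by
      rw [div_eq_div_iff (by positivity) (by positivity)]
      calc L * (8 * (π * t)) = L * (8 * ((√π * √π) * (√t * √t))) := by rw [h3, h4]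
        _ = _ := by ring
    rw [h1, e2]
    change 1 / (4 * π) * ((4 * π * t * heatTrace Ω t - (volume Ω).toReal +
      √t * (√π / 2 * L)) / t) = _
    have := Real.pi_pos.ne'
    field_simp
    ring

open Pool.Agent.W5h49.Tt in
theorem perimeter_unique {Ω : Set ℂ} (h : ConvexDomain Ω) {L L' : ℝ} (h1 : HasPerimeter Ω L)
    (h2 : HasPerimeter Ω L') : L = L' := by
  refine eq_of_forall_dist_le fun ε hε => ?_
  obtain ⟨d1, hd1, k1⟩ := h1 (ε / 2) (by positivity)
  obtain ⟨d2, hd2, k2⟩ := h2 (ε / 2) (by positivity)
  obtain ⟨m, q, hq, a1, a2, -⟩ := low h.isOpen h.convex h.bounded h.nonempty ∅ (lt_min hd1 hd2)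
  have b1 := k1 m q hq a1 (a2.trans (Metric.cthickening_mono (min_le_left _ _) _))
  have b2 := k2 m q hq a1 (a2.trans (Metric.cthickening_mono (min_le_right _ _) _))
  rw [Real.dist_eq]
  rw [abs_le] at b1 b2 ⊢
  constructor <;> linarith

/-- **Main theorem.** First part: the heat trace of an arbitrary bounded convex domain `Ω` up to the
constant term. Second part: isospectral bounded convex domains have the same area, perimeter and
corner sum, and if one of them has no corners, the other one has no corners either. -/
theorem result :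
    (∀ Ω : Set ℂ, ConvexDomain Ω →
      (∀ v ∈ frontier Ω, 0 < interiorAngle Ω v ∧ interiorAngle Ω v ≤ π) ∧
      Summable (fun v : frontier Ω => (π - interiorAngle Ω v) ^ 2 / interiorAngle Ω v) ∧
      ∃ L : ℝ, HasPerimeter Ω L ∧
        Tendsto (fun t : ℝ => heatTrace Ω t - (volume Ω).toReal / (4 * π * t) +
          L / (8 * √(π * t))) (𝓝[>] 0) (𝓝 (1 / 6 + cornerSum Ω / (24 * π)))) ∧
    (∀ Ω Ω' : Set ℂ, ConvexDomain Ω → ConvexDomain Ω' →
      (∀ k, dirichletEigenvalue Ω k = dirichletEigenvalue Ω' k) →
      volume Ω = volume Ω' ∧ (∀ L : ℝ, HasPerimeter Ω L ↔ HasPerimeter Ω' L) ∧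
      cornerSum Ω = cornerSum Ω' ∧
      ((∀ v ∈ frontier Ω, interiorAngle Ω v = π) → ∀ v ∈ frontier Ω', interiorAngle Ω' v = π)) := by
  have hang : ∀ Ω : Set ℂ, ConvexDomain Ω →
      ∀ v ∈ frontier Ω, 0 < interiorAngle Ω v ∧ interiorAngle Ω v ≤ π := by
    intro Ω h v hv
    refine ⟨Pool.Agent.W5h49.Tt.ia_pos h.isOpen h.nonempty ?_,
      Pool.Agent.W5h49.Tt.ia_le_pi h.nonempty v⟩
    have := hv.2
    rwa [h.isOpen.interior_eq] at this
  refine ⟨fun Ω h => ⟨hang Ω h, expansion h⟩, fun Ω Ω' h h' hiso => ?_⟩
  obtain ⟨hs, L, hL, hlim⟩ := expansion h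
  obtain ⟨hs', L', hL', hlim'⟩ := expansion h'
  have hZ : ∀ t, heatTrace Ω t = heatTrace Ω' t := fun t =>
    tsum_congr fun k => by rw [hiso (k + 1)]
  obtain ⟨e1, e2, e3⟩ := Pool.Agent.Y289.HI.exp_unique (hlim.congr fun t => by rw [hZ t]) hlim'
  have hpi := Real.pi_pos
  have hΓ : cornerSum Ω = cornerSum Ω' := by
    have h1 : cornerSum Ω / (24 * π) = cornerSum Ω' / (24 * π) := by linarith
    exact (div_left_inj' (by positivity)).1 h1
  refine ⟨?_, ?_, hΓ, ?_⟩
  · rw [← ENNReal.ofReal_toReal h.bounded.measure_lt_top.ne,
      ← ENNReal.ofReal_toReal h'.bounded.measure_lt_top.ne, e1]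
  · intro M
    constructor
    · intro hM
      rw [perimeter_unique h hM hL, e2]
      exact hL'
    · intro hM
      rw [perimeter_unique h' hM hL', ← e2]
      exact hL
  · intro hno v hv
    have h0 : cornerSum Ω = 0 := by
      rw [cornerSum]
      have : (fun v : frontier Ω => (π - interiorAngle Ω v) ^ 2 / interiorAngle Ω v) =
          fun _ => 0 := by
        funext v
        rw [hno v v.2, sub_self]
        simp
      rw [this, tsum_zero]
    rw [hΓ] at h0
    have hnn : ∀ v : frontier Ω', 0 ≤ (π - interiorAngle Ω' v) ^ 2 / interiorAngle Ω' v :=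
      fun v => div_nonneg (sq_nonneg _) (hang Ω' h' v v.2).1.le
    rw [cornerSum] at h0
    have hsum := hs'.hasSum
    rw [h0] at hsum
    have h1 : (π - interiorAngle Ω' v) ^ 2 / interiorAngle Ω' v = 0 :=
      congrFun ((hasSum_zero_iff_of_nonneg hnn).1 hsum) ⟨v, hv⟩
    have h2 := (hang Ω' h' v hv).1
    rcases div_eq_zero_iff.1 h1 with h3 | h3
    · have := pow_eq_zero_iff (two_ne_zero) |>.1 h3
      linarith
    · exact absurd h3 h2.ne'

end Pool.Agent.Results.MP_5b0138_an.CornersOfConvexDomains
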