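import Pool.Agent.W5h49.Cvx.Main
import Pool.Agent.R225.LP.Fin

set_option autoImplicit false

/-!
# A convex domain with the Dirichlet spectrum of a convex polygon is a polygon

Let `P` be a convex polygon and `Q` any bounded convex domain, with no assumption on its boundary,
which has the same Dirichlet spectrum. Then `Q` is a convex polygon. In particular every triangle is
determined by its Dirichlet spectrum among all bounded convex domains.

Main idea: `F(r ^ 2)`, where `F(t) = 4 π t Z(t)` and `Z` is the heat trace, is the expected area of
`Q ⊖ r X`, the set of the positions of `r` times a random loop `X` inside `Q`. We take the third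
difference of this function of `r`, at `r`, `2 r`, `3 r`, `4 r`. For a polygon the area is a quadratic
polynomial in `r` as long as no side disappears, so the third difference is exponentially small. For
every convex `Q` the third difference of the area of `Q ⊖ r X` is nonnegative as long as this set is
not empty, because minus the derivative of the area is twice a mixed area of `Q ⊖ r X` and `X`, and
`Q ⊖ r X` is a concave family. (`Third.lean`; in terms of the support numbers of polygons.) If `Q` is
not a polygon, it has two extreme points `x`, `y` whose distance is as small as one likes; the third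
difference is positive for the segment `X` from `0` to `(2 / 5) (y - x)`, as otherwise `y` would lie
between two other points of `Q` (`Chord.lean`), and the loops near this segment contribute much more
than the loops which do not fit into `Q`.
-/

open Set
open Pool.Agent.W703.GP (dirichletEigenvalue)

namespace Pool.Agent.Results.MP_5b0138_an.PolygonsAmongConvexDomains

/-- `interior (convexHull ℝ S)`, `S` finite, is an arbitrary convex polygon (a triangle, if `S` has at
most three points), and `Q` is an arbitrary bounded convex domain. The Dirichlet eigenvalues number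
`k` of the two, with multiplicity, defined by the min-max formula, agree for all `k`. -/
theorem result (S Q : Set ℂ) (hS : S.Finite) (hP : (interior (convexHull ℝ S)).Nonempty)
    (ho : IsOpen Q) (hc : Convex ℝ Q) (hb : Bornology.IsBounded Q) (hQ : Q.Nonempty)
    (h : ∀ k, dirichletEigenvalue (interior (convexHull ℝ S)) k = dirichletEigenvalue Q k) :
    (∃ T : Set ℂ, T.Finite ∧ Q = interior (convexHull ℝ T)) ∧
      (S.ncard ≤ 3 → ∃ φ : ℂ ≃ᵢ ℂ, φ '' interior (convexHull ℝ S) = Q) := by
  have key : ∃ T : Set ℂ, T.Finite ∧ Q = interior (convexHull ℝ T) := by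
    obtain ⟨n, p, hp, e⟩ := Pool.Agent.Y459.HI.vs S hS hP
    refine Pool.Agent.W5h49.Cvx.polygon_of_isospectral hp ho hc hb hQ ?_
    rw [e]
    exact h
  refine ⟨key, fun h3 => ?_⟩
  obtain ⟨T, hT, rfl⟩ := key
  -- three points
  obtain ⟨a, b, c, rfl⟩ : ∃ a b c : ℂ, S = {a, b, c} := by
    have hne : S.Nonempty := by
      by_contra hcon
      rw [Set.not_nonempty_iff_eq_empty] at hcon
      simp [hcon] at hP
    have h1 : 1 ≤ S.ncard := (Set.ncard_pos hS).2 hne
    have h4 : S.ncard = 1 ∨ S.ncard = 2 ∨ S.ncard = 3 := by omega
    rcases h4 with h4 | h4 | h4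
    · obtain ⟨a, rfl⟩ := Set.ncard_eq_one.1 h4
      exact ⟨a, a, a, by simp⟩
    · obtain ⟨a, b, -, rfl⟩ := Set.ncard_eq_two.1 h4
      exact ⟨a, a, b, by simp⟩
    · obtain ⟨a, b, c, -, -, -, rfl⟩ := Set.ncard_eq_three.1 h4
      exact ⟨a, b, c, rfl⟩
  obtain ⟨p, hp, e₁⟩ := Pool.Agent.R225.LP.tri_poly a b c hP
  obtain ⟨m, q, hq, e₂⟩ := Pool.Agent.Y459.HI.vs T hT hQ
  rw [← e₁, ← e₂] at h ⊢
  exact Pool.Agent.R225.LP.triangle p hp m q hq h

end Pool.Agent.Results.MP_5b0138_an.PolygonsAmongConvexDomains
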